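import Pool.Agent.helper33.CVX.Spec

set_option autoImplicit false

/-! # Project cvx, row TWL: the growth of the section ring of `P(⊕ O(d j))` -/

namespace Pool.Agent.CVX

set_option linter.unusedSectionVars false

open MvPolynomial

section
variable {ι : Type} [Fintype ι] [DecidableEq ι] (n : ι → ℕ) {J : Type} [Fintype J] [DecidableEq J]
  (d : J → ι → ℕ)

/-- the exponents of the spanning monomials -/
def TWL_M (T : ℕ) : Set ((Vr n ⊕ J) →₀ ℕ) :=
  {m | ∑ j, m (Sum.inr j) = T ∧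
    ∀ i, ∑ a : Fin (n i + 1), m (Sum.inl ⟨i, a⟩) = ∑ j, m (Sum.inr j) * d j i}

lemma TWL_fin (T : ℕ) : (TWL_M n d T).Finite := by
  set B : (Vr n ⊕ J) →₀ ℕ := Finsupp.equivFunOnFinite.symm
    (fun _ => T + ∑ i, ∑ j, T * d j i) with hB
  refine (Set.finite_Icc (0 : (Vr n ⊕ J) →₀ ℕ) B).subset ?_
  intro m hm
  refine ⟨zero_le, fun v => ?_⟩
  have hj : ∀ j, m (Sum.inr j) ≤ T := by
    intro j
    rw [← hm.1]
    exact Finset.single_le_sum (f := fun j => m (Sum.inr j)) (fun _ _ => Nat.zero_le _)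
      (Finset.mem_univ j)
  show m v ≤ T + ∑ i, ∑ j, T * d j i
  rcases v with ⟨i, a⟩ | j
  · have h1 : m (Sum.inl ⟨i, a⟩) ≤ ∑ j, m (Sum.inr j) * d j i := by
      rw [← hm.2 i]
      exact Finset.single_le_sum (f := fun a => m (Sum.inl ⟨i, a⟩)) (fun _ _ => Nat.zero_le _)
        (Finset.mem_univ a)
    have h2 : ∑ j, m (Sum.inr j) * d j i ≤ ∑ j, T * d j i :=
      Finset.sum_le_sum fun j _ => Nat.mul_le_mul_right _ (hj j)
    have h3 : ∑ j, T * d j i ≤ ∑ i, ∑ j, T * d j i :=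
      Finset.single_le_sum (f := fun i => ∑ j, T * d j i) (fun _ _ => Nat.zero_le _)
        (Finset.mem_univ i)
    omega
  · have := hj j
    omega

lemma TWL_AT (T : ℕ) :
    AT n d T = Submodule.span ℂ (Set.range fun m : TWL_M n d T => monomial m.1 (1 : ℂ)) := by
  unfold AT
  congr 1
  ext p
  constructor
  · rintro ⟨m, rfl, h1, h2⟩
    exact ⟨⟨m, h1, h2⟩, rfl⟩
  · rintro ⟨⟨m, h1, h2⟩, rfl⟩
    exact ⟨m, rfl, h1, h2⟩

lemma TWL_rank (T : ℕ) [Fintype (TWL_M n d T)] :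
    Module.finrank ℂ (AT n d T) = Fintype.card (TWL_M n d T) := by
  rw [TWL_AT]
  refine finrank_span_eq_card ?_
  have h1 := (basisMonomials (Vr n ⊕ J) ℂ).linearIndependent
  have h2 := h1.comp (fun m : TWL_M n d T => m.1) Subtype.val_injective
  rw [coe_basisMonomials] at h2
  exact h2

/-- the `β`-coordinates -/
def TWL_beta (T : ℕ) (j0 : J) (p : {j : J // j ≠ j0} → Fin (T / Fintype.card J + 1)) (j : J) : ℕ :=
  if h : j = j0 then T - ∑ j' : {j : J // j ≠ j0}, (p j' : ℕ) else p ⟨j, h⟩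

lemma TWL_sum (T : ℕ) (j0 : J) (p : {j : J // j ≠ j0} → Fin (T / Fintype.card J + 1)) :
    ∑ j, TWL_beta T j0 p j = T := by
  have h1 : ∑ j, TWL_beta T j0 p j = TWL_beta T j0 p j0 +
      ∑ j' : {j : J // j ≠ j0}, TWL_beta T j0 p j'.1 := by
    rw [← Finset.add_sum_erase Finset.univ _ (Finset.mem_univ j0)]
    congr 1
    refine (Finset.sum_subtype (Finset.univ.erase j0) (p := fun j => j ≠ j0) ?_ _)
    intro j
    simp
  have h2 : ∑ j' : {j : J // j ≠ j0}, TWL_beta T j0 p j'.1 =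
      ∑ j' : {j : J // j ≠ j0}, (p j' : ℕ) := by
    refine Finset.sum_congr rfl fun j' _ => ?_
    unfold TWL_beta
    rw [dif_neg j'.2]
  have h3 : ∑ j' : {j : J // j ≠ j0}, (p j' : ℕ) ≤ T := by
    calc ∑ j' : {j : J // j ≠ j0}, (p j' : ℕ) ≤ ∑ j' : {j : J // j ≠ j0}, T / Fintype.card J :=
          Finset.sum_le_sum fun j' _ => by have := (p j').2; omega
      _ = Fintype.card {j : J // j ≠ j0} * (T / Fintype.card J) := by
          rw [Finset.sum_const, Finset.card_univ, smul_eq_mul]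
      _ ≤ Fintype.card J * (T / Fintype.card J) :=
          Nat.mul_le_mul_right _ (Fintype.card_subtype_le _)
      _ ≤ T := Nat.mul_div_le _ _
  rw [h1, h2]
  unfold TWL_beta
  rw [dif_pos rfl]
  omega

/-- the exponent attached to the parameters -/
noncomputable def TWL_exp (T : ℕ) (j0 : J)
    (p : ({j : J // j ≠ j0} → Fin (T / Fintype.card J + 1)) ×
      ((i : ι) → Fin (n i) → Fin (T / (n i + 1) + 1))) : (Vr n ⊕ J) →₀ ℕ :=
  Finsupp.equivFunOnFinite.symm (Sum.elim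
    (fun v : Vr n => Fin.cases (motive := fun _ => ℕ)
      (∑ j, TWL_beta T j0 p.1 j * d j v.1 - ∑ a : Fin (n v.1), (p.2 v.1 a : ℕ))
      (fun a => (p.2 v.1 a : ℕ)) v.2)
    (fun j => TWL_beta T j0 p.1 j))

lemma TWL_mem (hd : ∀ j i, 1 ≤ d j i) (T : ℕ) (j0 : J)
    (p : ({j : J // j ≠ j0} → Fin (T / Fintype.card J + 1)) ×
      ((i : ι) → Fin (n i) → Fin (T / (n i + 1) + 1))) : TWL_exp n d T j0 p ∈ TWL_M n d T := by
  refine ⟨TWL_sum T j0 p.1, fun i => ?_⟩
  have hb : ∑ a : Fin (n i), (p.2 i a : ℕ) ≤ T := by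
    calc ∑ a : Fin (n i), (p.2 i a : ℕ) ≤ ∑ a : Fin (n i), T / (n i + 1) :=
          Finset.sum_le_sum fun a _ => by have := (p.2 i a).2; omega
      _ = n i * (T / (n i + 1)) := by
          rw [Finset.sum_const, Finset.card_univ, smul_eq_mul, Fintype.card_fin]
      _ ≤ (n i + 1) * (T / (n i + 1)) := Nat.mul_le_mul_right _ (Nat.le_succ _)
      _ ≤ T := Nat.mul_div_le _ _
  have hD : T ≤ ∑ j, TWL_beta T j0 p.1 j * d j i := by
    calc T = ∑ j, TWL_beta T j0 p.1 j := (TWL_sum T j0 p.1).symm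
      _ ≤ ∑ j, TWL_beta T j0 p.1 j * d j i :=
          Finset.sum_le_sum fun j _ => Nat.le_mul_of_pos_right _ (hd j i)
  rw [Fin.sum_univ_succ]
  show (∑ j, TWL_beta T j0 p.1 j * d j i - ∑ a : Fin (n i), (p.2 i a : ℕ)) +
    ∑ a : Fin (n i), (p.2 i a : ℕ) = ∑ j, TWL_beta T j0 p.1 j * d j i
  omega

lemma TWL_inj (T : ℕ) (j0 : J) : Function.Injective (TWL_exp n d T j0) := by
  rintro ⟨p1, p2⟩ ⟨q1, q2⟩ h
  have h1 : p1 = q1 := by
    funext j
    apply Fin.ext
    have h2 : TWL_beta T j0 p1 j.1 = TWL_beta T j0 q1 j.1 :=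
      DFunLike.congr_fun h (Sum.inr j.1)
    unfold TWL_beta at h2
    rw [dif_neg j.2, dif_neg j.2] at h2
    exact h2
  have h3 : p2 = q2 := by
    funext i a
    apply Fin.ext
    exact DFunLike.congr_fun h (Sum.inl ⟨i, a.succ⟩)
  rw [h1, h3]

lemma TWL_div (T k : ℕ) (hk : 0 < k) :
    (1 / (k : ℝ)) * ((T : ℝ) + 1) ≤ ((T / k + 1 : ℕ) : ℝ) := by
  have hk' : (0 : ℝ) < k := by exact_mod_cast hk
  rw [one_div, inv_mul_le_iff₀ hk']
  have h1 : T + 1 ≤ k * (T / k + 1) := by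
    have := Nat.div_add_mod T k
    have := Nat.mod_lt T hk
    rw [Nat.mul_add]
    omega
  exact_mod_cast h1

end

theorem TWL : TWL_stmt := by
  intro ι _ _ n J _ _ hJ d hd
  refine ⟨fun T => ?_, ?_⟩
  · have : Fintype (TWL_M n d T) := (TWL_fin n d T).fintype
    rw [TWL_AT]
    exact Module.Finite.span_of_finite ℂ (Set.finite_range _)
  · obtain ⟨j0⟩ := hJ
    have hJp : 0 < Fintype.card J := Fintype.card_pos_iff.2 ⟨j0⟩
    refine ⟨(1 / (Fintype.card J : ℝ)) ^ (Fintype.card J - 1) *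
      ∏ i, (1 / ((n i + 1 : ℕ) : ℝ)) ^ (n i), ?_, fun T => ?_⟩
    · have hJp' : (0 : ℝ) < Fintype.card J := by exact_mod_cast hJp
      refine mul_pos (pow_pos (by positivity) _) (Finset.prod_pos fun i _ => ?_)
      positivity
    · have : Fintype (TWL_M n d T) := (TWL_fin n d T).fintype
      rw [TWL_rank]
      have hcard : Fintype.card (({j : J // j ≠ j0} → Fin (T / Fintype.card J + 1)) ×
          ((i : ι) → Fin (n i) → Fin (T / (n i + 1) + 1))) ≤ Fintype.card (TWL_M n d T) :=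
        Fintype.card_le_of_injective
          (fun p => (⟨TWL_exp n d T j0 p, TWL_mem n d hd T j0 p⟩ : TWL_M n d T))
          (fun p q h => TWL_inj n d T j0 (congrArg Subtype.val h))
      have hc2 : Fintype.card (({j : J // j ≠ j0} → Fin (T / Fintype.card J + 1)) ×
          ((i : ι) → Fin (n i) → Fin (T / (n i + 1) + 1))) =
          (T / Fintype.card J + 1) ^ (Fintype.card J - 1) * ∏ i, (T / (n i + 1) + 1) ^ (n i) := by
        rw [Fintype.card_prod, Fintype.card_pi]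
        simp only [Fintype.card_pi, Fintype.card_fin, Finset.prod_const, Finset.card_univ,
          Fintype.card_subtype_compl, Fintype.card_unique]
      rw [hc2] at hcard
      have h3 : (((T / Fintype.card J + 1) ^ (Fintype.card J - 1) *
          ∏ i, (T / (n i + 1) + 1) ^ (n i) : ℕ) : ℝ) ≤ (Fintype.card (TWL_M n d T) : ℝ) := by
        exact_mod_cast hcard
      refine le_trans ?_ h3
      have hexp : ∑ i, n i + Fintype.card J - 1 = (Fintype.card J - 1) + ∑ i, n i := by omega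
      rw [hexp, pow_add, ← Finset.prod_pow_eq_pow_sum]
      rw [Nat.cast_mul, Nat.cast_pow, Nat.cast_prod]
      have e : (1 / (Fintype.card J : ℝ)) ^ (Fintype.card J - 1) *
          (∏ i, (1 / ((n i + 1 : ℕ) : ℝ)) ^ (n i)) *
          (((T : ℝ) + 1) ^ (Fintype.card J - 1) * ∏ i, ((T : ℝ) + 1) ^ (n i)) =
          ((1 / (Fintype.card J : ℝ)) * ((T : ℝ) + 1)) ^ (Fintype.card J - 1) *
          ∏ i, ((1 / ((n i + 1 : ℕ) : ℝ)) * ((T : ℝ) + 1)) ^ (n i) := by
        rw [mul_pow]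
        simp only [mul_pow]
        rw [Finset.prod_mul_distrib]
        ring
      rw [e]
      refine mul_le_mul ?_ ?_ ?_ ?_
      · exact pow_le_pow_left₀ (by positivity) (TWL_div T _ hJp) _
      · refine Finset.prod_le_prod (fun i _ => by positivity) fun i _ => ?_
        rw [Nat.cast_pow]
        exact pow_le_pow_left₀ (by positivity) (TWL_div T _ (Nat.succ_pos _)) _
      · exact Finset.prod_nonneg fun i _ => by positivity
      · positivity

end Pool.Agent.CVX
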